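import Mathlib
import Pool.Agent.H590R3.AbStmts

set_option autoImplicit false

namespace Pool.Agent.H663R4.AB

open Pool.H590R3.Ab Filter Topology

theorem ca_mul (δ : ℝ) (F : ℝ → ℝ) (k : ℤ) : ca (fun θ => δ * F θ) k = δ * ca F k := by
  unfold ca
  simp only [mul_assoc]
  rw [intervalIntegral.integral_const_mul]
  ring

theorem ca_bound (F : ℝ → ℝ) (C : ℝ) (hF : ∀ θ, |F θ| ≤ C) (k : ℤ) : |ca F k| ≤ C := by
  have hpi := Real.pi_pos
  have hC : 0 ≤ C := (abs_nonneg _).trans (hF 0)
  unfold ca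
  have h1 : ‖∫ θ in (0:ℝ)..Real.pi, F θ * Real.cos (k * θ)‖ ≤ C * |Real.pi - 0| := by
    apply intervalIntegral.norm_integral_le_of_norm_le_const
    intro x _
    rw [Real.norm_eq_abs, abs_mul]
    calc |F x| * |Real.cos (k * x)| ≤ C * 1 :=
          mul_le_mul (hF x) (Real.abs_cos_le_one _) (abs_nonneg _) hC
      _ = C := mul_one C
  rw [Real.norm_eq_abs, sub_zero, abs_of_pos hpi] at h1
  rw [abs_mul, abs_of_pos (by positivity)]
  calc 1 / Real.pi * |∫ θ in (0:ℝ)..Real.pi, F θ * Real.cos (k * θ)| ≤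
        1 / Real.pi * (C * Real.pi) := mul_le_mul_of_nonneg_left h1 (by positivity)
    _ = C := by field_simp

theorem dec2 : Dec2_stmt := by
  intro hD1 G hG hG0
  obtain ⟨K, hK⟩ := hD1 G hG hG0
  -- a bound for G
  obtain ⟨B, hB⟩ : ∃ B : ℝ, ∀ u, |G u| ≤ B := by
    obtain ⟨B, hB⟩ := (isCompact_Icc (a := (-1 : ℝ)) (b := 1)).exists_bound_of_continuousOn
      hG.continuous.continuousOn
    refine ⟨max B 0, fun u => ?_⟩
    by_cases hu : 1 ≤ |u|
    · rw [hG0 u hu, abs_zero]
      exact le_max_right _ _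
    · push Not at hu
      have := hB u ⟨(abs_lt.1 hu).1.le, (abs_lt.1 hu).2.le⟩
      exact this.trans (le_max_left _ _)
  have hB0 : 0 ≤ B := (abs_nonneg _).trans (hB 0)
  have hK0 : 0 ≤ K := by
    have := (abs_nonneg _).trans (hK 1 one_pos le_rfl 0 1 one_ne_zero)
    simpa using this
  let bound : ℤ → ℝ := fun k => K * (1 / (k : ℝ) ^ 2) + if k = 0 then B else 0
  have hbs : Summable bound := by
    refine Summable.add ((Real.summable_one_div_int_pow.2 (by norm_num)).mul_left K) ?_
    exact summable_of_ne_finset_zero (s := {0}) (fun k hk => by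
      rw [if_neg (by simpa using hk)])
  have hb0 : ∀ k, 0 ≤ bound k := by
    intro k
    simp only [bound]
    split_ifs <;> positivity
  have hca : ∀ δ : ℝ, 0 < δ → δ ≤ 1 → ∀ c : ℝ, ∀ k : ℤ,
      |ca (fun θ => δ * G ((Real.cos θ - c) / δ)) k| ≤ min (δ * B) (bound k) := by
    intro δ hδ hδ1 c k
    have h1 : |ca (fun θ => δ * G ((Real.cos θ - c) / δ)) k| ≤ δ * B := by
      apply ca_bound
      intro θ
      rw [abs_mul, abs_of_pos hδ]
      exact mul_le_mul_of_nonneg_left (hB _) hδ.le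
    refine le_min h1 ?_
    simp only [bound]
    by_cases hk : k = 0
    · rw [if_pos hk, hk]
      rw [hk] at h1
      have : δ * B ≤ B := by nlinarith
      simp only [Int.cast_zero]
      norm_num
      linarith
    · rw [if_neg hk, add_zero]
      have := hK δ hδ hδ1 c k hk
      rw [mul_one_div]
      exact this
  constructor
  · intro δ hδ hδ1 c
    have h1 : ∀ k : ℤ, |ca (fun θ => G ((Real.cos θ - c) / δ)) k| ≤ δ⁻¹ * bound k := by
      intro k
      have h2 := (hca δ hδ hδ1 c k).trans (min_le_right _ _)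
      rw [ca_mul, abs_mul, abs_of_pos hδ] at h2
      rw [inv_mul_eq_div, le_div_iff₀ hδ]
      linarith
    exact Summable.of_nonneg_of_le (fun k => abs_nonneg _) h1 (hbs.mul_left _)
  · intro ε hε
    have ht : Tendsto (fun δ : ℝ => ∑' k : ℤ, min (δ * B) (bound k)) (𝓝[>] 0)
        (𝓝 (∑' k : ℤ, (0 : ℝ))) := by
      refine tendsto_tsum_of_dominated_convergence hbs (fun k => ?_) ?_
      · have h1 : Tendsto (fun δ : ℝ => min (δ * B) (bound k)) (𝓝[>] 0)
            (𝓝 (min (0 * B) (bound k))) := by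
          have hc : Continuous (fun δ : ℝ => min (δ * B) (bound k)) := by fun_prop
          exact (hc.tendsto 0).mono_left nhdsWithin_le_nhds
        rwa [zero_mul, min_eq_left (hb0 k)] at h1
      · filter_upwards [self_mem_nhdsWithin] with δ hδ k
        have hδ : 0 < δ := hδ
        rw [Real.norm_eq_abs, abs_of_nonneg (le_min (by positivity) (hb0 k))]
        exact min_le_right _ _
    rw [tsum_zero] at ht
    have hev := ht.eventually_lt_const hε
    obtain ⟨δ0, hδ0, h0⟩ := mem_nhdsGT_iff_exists_Ioo_subset.1 hev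
    refine ⟨δ0, hδ0, fun δ hδ hδ' hδ1 c => ?_⟩
    have h1 : ∑' k : ℤ, min (δ * B) (bound k) < ε := h0 ⟨hδ, hδ'⟩
    refine le_trans ?_ h1.le
    have hs2 : Summable (fun k : ℤ => min (δ * B) (bound k)) :=
      Summable.of_nonneg_of_le (fun k => le_min (by positivity) (hb0 k))
        (fun k => min_le_right _ _) hbs
    have hs1 : Summable (fun k : ℤ => |ca (fun θ => δ * G ((Real.cos θ - c) / δ)) k|) :=
      Summable.of_nonneg_of_le (fun k => abs_nonneg _) (hca δ hδ hδ1 c) hs2
    exact hs1.tsum_le_tsum (hca δ hδ hδ1 c) hs2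

end Pool.Agent.H663R4.AB
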